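import Pool.Agent.Lib.H8MC.Fin
import Pool.Agent.Lib.H8MC.IZ

/-!
# MP_1d9866_lc: Magidor cardinals with alpha_M the successor of a singular cardinal

(1) If there are a Magidor cardinal `λ` and a singular cardinal `μ` with `μ^ω = μ` and `alpha_M(λ) ≤ μ⁺ < λ` (`Hyp`), then there is a model `(M, E)` of ZFC which satisfies the literal sentence
`AnswerIn`: there are a Magidor cardinal `l` and a singular cardinal `m` with `alpha_M(l) = m⁺`. (2) `I1(κ, λ)` implies `Hyp`.
-/

set_option autoImplicit false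

namespace Pool.Agent.Results.MP_1d9866_lc.SuccessorOfSingular

open Pool.Agent.H5Z Pool.Agent.H8MC

theorem result :
    (Hyp → ∃ (M : Type 1) (E : M → M → Prop), ModelsZFC E ∧ AnswerIn E) ∧
    ∀ kap lam : Ordinal.{0}, I1 kap lam → Hyp :=
  ⟨answer_of_hyp, fun _ _ h => hyp_of_I1 h⟩

end Pool.Agent.Results.MP_1d9866_lc.SuccessorOfSingular
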